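import Mathlib
import Pool.Agent.IS45.FinP2
import Pool.Agent.IS45.Gap

set_option autoImplicit false

namespace Pool.Agent.Results.MP_dcdbc5_co.AllPosets

/-- The number of linear extensions of `α` (`σ i` is the element in position `i`) with `k`
descents for the labelling `f`. -/
noncomputable def desNum {α : Type} [PartialOrder α] {n : ℕ} (f : α ≃ Fin n) (k : ℕ) : ℕ :=
  Nat.card {σ : Fin n ≃ α // (∀ i j : Fin n, σ i < σ j → i < j) ∧
    Nat.card {i : Fin n // ∃ h : i.val + 1 < n, f (σ ⟨i.val + 1, h⟩) < f (σ i)} = k}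

/-- The average number of descents of a linear extension. -/
noncomputable def mean {α : Type} [PartialOrder α] {n : ℕ} (f : α ≃ Fin n) : ℝ :=
  (∑ k ∈ Finset.range n, (k : ℝ) * desNum f k) / ∑ k ∈ Finset.range n, (desNum f k : ℝ)

/-- For every `ε > 0` there is `C`: with `D = C (n log n)^(1/2)` the numbers `desNum f k`,
`k ≥ ε n`, increase up to `mean f - D`; and they decrease from `mean f + D` on, at all `k` with
`k ≥ (n - 1)/2` or without a chain of more than `n - k - ε n` elements. -/
theorem result :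
    ∀ ε : ℝ, 0 < ε → ∃ C : ℝ, 0 < C ∧ ∀ n : ℕ, 2 ≤ n → ∀ (α : Type) [PartialOrder α]
      (f : α ≃ Fin n), (∀ x y : α, x < y → f x < f y) → ∀ k : ℕ, ε * n ≤ k →
        ((k : ℝ) ≤ mean f - C * Real.sqrt (n * Real.log n) →
          desNum f k ≤ desNum f (k + 1)) ∧
        (mean f + C * Real.sqrt (n * Real.log n) ≤ k →
          (n ≤ 2 * k + 1 ∨
            ∀ s : Finset α, IsChain (· ≤ ·) (s : Set α) → (s.card : ℝ) + k + ε * n ≤ n) →
          desNum f (k + 1) ≤ desNum f k) := by
  intro ε hε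
  obtain ⟨C, hC, h⟩ := Pool.IS45.all_posets Pool.IS45.gap_all ε hε
  exact ⟨C, hC, fun n hn α _ f hf k hk => h n hn α f hf k hk⟩

end Pool.Agent.Results.MP_dcdbc5_co.AllPosets
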