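import Mathlib
import Pool.Agent.LA34.Main

/-!
Almost all finite posets have unimodal descent numbers, with an exceptional share of at most
`C 2 ^ (-c n ^ 2)`, in every counting of the posets on `Fin n` up to isomorphisms from a group of permutations
(the trivial group: labelled posets; all permutations: isomorphism classes).
-/

set_option autoImplicit false

namespace Pool.Agent.Results.MP_dcdbc5_co.AlmostAllPosets

/-- `w_k`: the number of linear extensions (words in the points, `σ i` the `i`-th letter) of the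
partial order `P` on `{0, …, n - 1}` with exactly `k` descents with respect to the labelling `f`. -/
noncomputable def w {n : ℕ} (P : PartialOrder (Fin n)) (f : Fin n ≃ Fin n) (k : ℕ) : ℕ :=
  Nat.card {σ : Fin n ≃ Fin n //
    (∀ i j : Fin n, P.lt (σ i) (σ j) → i < j) ∧
    Nat.card {i : Fin n // ∃ h : i.val + 1 < n, f (σ ⟨i.val + 1, h⟩) < f (σ i)} = k}

/-- For every natural labelling of `P` the sequence `w_0, w_1, …` is unimodal. -/
def AllUnimodal {n : ℕ} (P : PartialOrder (Fin n)) : Prop :=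
  ∀ f : Fin n ≃ Fin n, (∀ x y : Fin n, P.lt x y → f x < f y) →
    ∃ m : ℕ, ∀ k : ℕ, (k < m → w P f k ≤ w P f (k + 1)) ∧ (m ≤ k → w P f (k + 1) ≤ w P f k)

/-- Isomorphism of partial orders on `{0, …, n - 1}` by permutations from the group `G`. -/
def iso {n : ℕ} (G : Subgroup (Equiv.Perm (Fin n))) : Setoid (PartialOrder (Fin n)) where
  r P Q := ∃ σ ∈ G, ∀ x y : Fin n, P.le x y ↔ Q.le (σ x) (σ y)
  iseqv := {
    refl := fun P => ⟨1, G.one_mem, fun x y => Iff.rfl⟩
    symm := by
      rintro P Q ⟨σ, hσ, h⟩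
      refine ⟨σ⁻¹, G.inv_mem hσ, fun x y => ?_⟩
      rw [h]
      simp
    trans := by
      rintro P Q R ⟨σ, hσ, h⟩ ⟨τ, hτ, h'⟩
      exact ⟨τ * σ, G.mul_mem hτ hσ, fun x y => (h x y).trans (h' _ _)⟩ }

theorem result :
    ∃ c : ℝ, 0 < c ∧ ∃ C : ℝ, ∀ (n : ℕ) (G : Subgroup (Equiv.Perm (Fin n))),
      (Nat.card {q : Quotient (iso G) // ∃ P : PartialOrder (Fin n),
          Quotient.mk (iso G) P = q ∧ ¬ AllUnimodal P} : ℝ) ≤
        C * (2 : ℝ) ^ (-c * (n : ℝ) ^ 2) * Nat.card (Quotient (iso G)) := by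
  obtain ⟨c, hc, h⟩ := Pool.LA34.long_chain
  obtain ⟨C, hC⟩ := Pool.LA34.classes_share (fun n P => n ≠ 0 ∧ ¬ AllUnimodal P) c hc (by
    rintro n P ⟨hn, hP⟩
    unfold AllUnimodal at hP
    push Not at hP
    obtain ⟨f, hf, hnot⟩ := hP
    rcases h n P f hf (by
      rintro ⟨m, hm⟩
      obtain ⟨k, hk⟩ := hnot m
      have hm' := hm k
      by_cases h1 : k < m ∧ w P f (k + 1) < w P f k
      · exact absurd (hm'.1 h1.1) (not_le.2 h1.2)
      · obtain ⟨h2, h3⟩ := hk (fun h4 => not_lt.1 fun h5 => h1 ⟨h4, h5⟩)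
        exact absurd (hm'.2 h2) (not_le.2 h3)) with h0 | h0
    · exact absurd h0 hn
    · exact h0)
  refine ⟨c / 16, by positivity, max C 1, fun n G => ?_⟩
  have hfin : Finite (PartialOrder (Fin n)) :=
    Finite.of_injective (fun P : PartialOrder (Fin n) => P.le)
      (fun P Q h => PartialOrder.ext (by intro x y; exact iff_of_eq (congrFun (congrFun h x) y)))
  rcases Nat.eq_zero_or_pos n with hn | hn
  · have h1 : Nat.card {q : Quotient (iso G) // ∃ P : PartialOrder (Fin n),
        Quotient.mk (iso G) P = q ∧ ¬ AllUnimodal P} ≤ Nat.card (Quotient (iso G)) :=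
      Nat.card_le_card_of_injective (fun q => q.1) Subtype.val_injective
    have h2 : (2 : ℝ) ^ (-(c / 16) * (n : ℝ) ^ 2) = 1 := by
      rw [hn]
      simp
    rw [h2, mul_one]
    calc (Nat.card {q : Quotient (iso G) // ∃ P : PartialOrder (Fin n),
          Quotient.mk (iso G) P = q ∧ ¬ AllUnimodal P} : ℝ) ≤ Nat.card (Quotient (iso G)) := by
          exact_mod_cast h1
      _ = 1 * (Nat.card (Quotient (iso G)) : ℝ) := (one_mul _).symm
      _ ≤ max C 1 * (Nat.card (Quotient (iso G)) : ℝ) :=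
          mul_le_mul_of_nonneg_right (le_max_right _ _) (Nat.cast_nonneg _)
  · have h1 : Nat.card {q : Quotient (iso G) // ∃ P : PartialOrder (Fin n),
        Quotient.mk (iso G) P = q ∧ ¬ AllUnimodal P} ≤
        Nat.card {q : Quotient (Pool.KR87.isoG G) // ∃ P : PartialOrder (Fin n),
          Quotient.mk (Pool.KR87.isoG G) P = q ∧ n ≠ 0 ∧ ¬ AllUnimodal P} :=
      Nat.card_le_card_of_injective
        (fun q : {q : Quotient (iso G) // ∃ P : PartialOrder (Fin n),
            Quotient.mk (iso G) P = q ∧ ¬ AllUnimodal P} =>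
          (⟨q.1, by
            obtain ⟨P, hP, hb⟩ := q.2
            exact ⟨P, hP, hn.ne', hb⟩⟩ : {q : Quotient (Pool.KR87.isoG G) //
              ∃ P : PartialOrder (Fin n), Quotient.mk (Pool.KR87.isoG G) P = q ∧
                n ≠ 0 ∧ ¬ AllUnimodal P}))
        (fun _ _ h => Subtype.ext (Subtype.mk.inj h))
    have h2 : (Nat.card {q : Quotient (iso G) // ∃ P : PartialOrder (Fin n),
        Quotient.mk (iso G) P = q ∧ ¬ AllUnimodal P} : ℝ) ≤
        C * (2 : ℝ) ^ (-(c / 16) * (n : ℝ) ^ 2) * Nat.card (Quotient (iso G)) :=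
      le_trans (by exact_mod_cast h1) (hC n G)
    refine h2.trans ?_
    gcongr
    exact le_max_left _ _

end Pool.Agent.Results.MP_dcdbc5_co.AlmostAllPosets
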