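import Mathlib
import Pool.Agent.DU31.Final

set_option autoImplicit false

namespace Pool.Agent.Results.MP_dcdbc5_co.DimensionTwo

/-- Let `α` be a finite poset that embeds in the product of two linear orders, i.e. a poset of order
dimension at most two, let `f` be any natural labelling of it and let `w k` be the number of its
linear extensions with exactly `k` descents. Then `w` is unimodal, and for `n = card α`
`(k + 2) (l + 2) w_k w_{k+2} ≤ (k + 1) (l + 1) w_{k+1}²` whenever `k + l + 2 = n`, i.e.
`w_k / choose n k` is log-concave. -/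
theorem result :
    ∀ (α : Type) [Fintype α] [PartialOrder α] (f : α ≃ Fin (Fintype.card α)),
      (∀ x y : α, x < y → f x < f y) →
      ∀ w : ℕ → ℕ,
        (∀ k : ℕ, w k = Nat.card {σ : Fin (Fintype.card α) ≃ α //
            (∀ i j : Fin (Fintype.card α), σ i < σ j → i < j) ∧
            Nat.card {i : Fin (Fintype.card α) //
              ∃ h : i.val + 1 < Fintype.card α,
                f (σ ⟨i.val + 1, h⟩) < f (σ i)} = k}) →
        ∀ (β γ : Type) [LinearOrder β] [LinearOrder γ] (r : α → β) (s : α → γ),
          (∀ x y : α, x ≤ y ↔ r x ≤ r y ∧ s x ≤ s y) →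
          (∃ m : ℕ, ∀ k : ℕ, (k < m → w k ≤ w (k + 1)) ∧ (m ≤ k → w (k + 1) ≤ w k)) ∧
          ∀ k l : ℕ, k + l + 2 = Fintype.card α →
            (k + 2) * (l + 2) * (w k * w (k + 2)) ≤ (k + 1) * (l + 1) * w (k + 1) ^ 2 := by
  intro α _ _ f hf w hw β γ _ _ r s h
  have e : w = Pool.GT34.wnum α f := funext fun k => hw k
  rw [e]
  exact Pool.DU31.dim_two f hf r s h

end Pool.Agent.Results.MP_dcdbc5_co.DimensionTwo
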