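import Mathlib
import Pool.Agent.LC34.Final

set_option autoImplicit false

namespace Pool.Agent.Results.MP_dcdbc5_co.LinearHeight

/-- The number of linear extensions of `α` (`σ i` is the element in position `i`) with `k`
descents for the labelling `f`. -/
noncomputable def desNum {α : Type} [PartialOrder α] {n : ℕ} (f : α ≃ Fin n) (k : ℕ) : ℕ :=
  Nat.card {σ : Fin n ≃ α // (∀ i j : Fin n, σ i < σ j → i < j) ∧
    Nat.card {i : Fin n // ∃ h : i.val + 1 < n, f (σ ⟨i.val + 1, h⟩) < f (σ i)} = k}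

theorem result :
    ∃ c : ℝ, 0 < c ∧ ∀ n : ℕ, 1 ≤ n → ∀ (α : Type) [PartialOrder α] (f : α ≃ Fin n),
      (∀ x y : α, x < y → f x < f y) →
      (∀ s : Finset α, IsChain (· ≤ ·) (s : Set α) → (s.card : ℝ) ≤ c * n) →
      ∃ m : ℕ, ∀ k : ℕ, (k < m → desNum f k ≤ desNum f (k + 1)) ∧
        (m ≤ k → desNum f (k + 1) ≤ desNum f k) := by
  obtain ⟨c, hc, h⟩ := Pool.LC34.linear_chains
  refine ⟨c, hc, fun n hn α _ f hf hs => ?_⟩
  have : Fintype α := Fintype.ofEquiv _ f.symm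
  exact h n hn α f hf hs

end Pool.Agent.Results.MP_dcdbc5_co.LinearHeight
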